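import Pool.Agent.Helper87.PG.Stmts
import Pool.Agent.Helper15.TC.SM2

/-!
The members of the family through a general point are nonsingular there (module SM2 of
`MP_39dd1a_ag.FiniteModels`).
-/

set_option autoImplicit false

namespace Pool.Agent.Helper87.PG

open MvPolynomial Pool.Agent.Helper48.VMRT Pool.Agent.Helper87.VM Pool.Agent.Helper87.TC

theorem sm3_FX_smul {D : VD} {y : Option (Fin D.w) × D.ν → ℂ} (a : ℂ)
    (hy : y ∈ FX D) : a • y ∈ FX D := by
  obtain ⟨τ, h1, h2, hy⟩ := hy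
  refine ⟨τ, h1, h2, ?_⟩
  rcases hy with hy | hy
  · left
    rw [map_smul, hy]
  · right
    rw [map_smul, hy, smul_neg]

theorem sm3_inv {D : VD} {m : ℕ} (hT : TD D m) : ∃ τ : D.G, τ ≠ 1 ∧ τ * τ = 1 := by
  have hc : Nat.card D.G ≠ 0 := by
    rw [hT.card]
    positivity
  have : Finite D.G := Nat.finite_of_card_ne_zero hc
  have : Fact (Nat.Prime 2) := ⟨Nat.prime_two⟩
  have hd : 2 ∣ Nat.card D.G := by
    rw [hT.card]
    exact dvd_pow_self 2 (by have := hT.pos; omega)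
  obtain ⟨τ, hτ⟩ := exists_prime_orderOf_dvd_card' (G := D.G) 2 hd
  refine ⟨τ, ?_, ?_⟩
  · rintro rfl
    rw [orderOf_one] at hτ
    omega
  · have := pow_orderOf_eq_one τ
    rwa [hτ, pow_two] at this

theorem sm3_zero_DX {D : VD} {m N : ℕ}
    {E : Fin (N + 1) → MvPolynomial (Option (Fin D.w) × D.ν) ℂ} {X DX : Set (Fin (N + 1) → ℂ)}
    (hT : TR D m N E X DX) : (0 : Fin (N + 1) → ℂ) ∈ DX := by
  obtain ⟨τ, h1, h2⟩ := sm3_inv hT.td
  have h3 : (0 : Option (Fin D.w) × D.ν → ℂ) ∈ FX D := ⟨τ, h1, h2, Or.inl (map_zero _)⟩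
  have h4 := hT.res.on 0 h3
  have h5 := hT.res.dcone 0 _ h4
  rwa [zero_smul] at h5

theorem st_SM2 (h1 : TC.ST_MEM0) (h2 : ST_LINE) (h3 : ST_VTS2) : ST_SM2 := by
  intro D m N E X DX hT u hG c₀ hc₀ z hz hz0 c hc
  have hD : D.Good := hT.td.good
  have hE := hT.res.hom
  have hF := hD.fd.hom
  have hKpos : (4 : ℕ) ^ m ≠ 0 := by positivity
  have hmov : ∀ g : D.G, g ≠ 1 → D.ρ g u ≠ u := by
    intro g hg h
    apply hG.mov g hg
    rw [h, sub_self]
    have h := sm2_zcone hD 0 hz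
    rwa [zero_smul] at h
  have hu0 : u ≠ 0 := by
    rintro rfl
    obtain ⟨τ, h4, -⟩ := sm3_inv hT.td
    exact hmov τ h4 (map_zero _)
  obtain ⟨y, η, hy1, hη1, hy2, hy3, hy4⟩ := h1 D hD (ov 1 u) (ov 0 z) (sm2_LP hD u z hz hz0)
  have hsy : ∀ s t : ℂ, s • hevv D.a y s t = D.gr (s • ov 1 u + t • ov 0 z) := by
    intro s t
    have h := hy4 s t
    rw [ov_none, ov_none, mul_one, mul_zero, add_zero] at h
    rw [hy2, ← seg_smul_right, h, VD.gr]
  have hnFX := h2 D m hT.td u hG.gl z hz hz0 y hy1 hsy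
  have hpt : ∀ s t : ℂ, pt c s t = ev E (c₀ • hevv D.a y s t) := by
    intro s t
    funext i
    refine sm2_ext (f := fun s => pt c s t i) (g := fun s => ev E (c₀ • hevv D.a y s t) i)
      (sm2_cont_pt c t i) ?_ ?_ s
    · refine sm2_cont_eval (E i) (f := fun s => c₀ • hevv D.a y s t) fun o => ?_
      exact (sm2_cont_hev D.a (y o) t).const_mul c₀
    · intro s hs
      have h := congrFun (hc s t) i
      rw [← hsy, smul_comm, sm2_ev_smul hE, Pi.smul_apply, Pi.smul_apply, smul_eq_mul,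
        smul_eq_mul] at h
      exact mul_left_cancel₀ (pow_ne_zero _ hs) h
  have hy10 : hevv D.a y 1 0 = D.gr (ov 1 u) := by
    have h := hsy 1 0
    rwa [one_smul, one_smul, zero_smul, add_zero] at h
  have hpt10 : pt c 1 0 = ev E (c₀ • D.gr (ov 1 u)) := by
    rw [hpt, hy10]
  have hYcone : ∀ (a : ℂ) (y' : Option (Fin D.w) × D.ν → ℂ), y' ∈ D.Y → a • y' ∈ D.Y :=
    fun a y' hy' => hD.Ypm.cone a y' hy'
  have hnF : ∀ s t : ℂ, (s, t) ≠ (0, 0) → c₀ • hevv D.a y s t ∉ FX D := by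
    intro s t hst h
    apply hnFX s t hst
    have h' := sm3_FX_smul c₀⁻¹ h
    rwa [smul_smul, inv_mul_cancel₀ hc₀, one_smul] at h'
  have h10 : ((1 : ℂ), (0 : ℂ)) ≠ (0, 0) := by simp
  -- the point is not zero
  have hv0 : ev E (c₀ • D.gr (ov 1 u)) ≠ 0 := by
    intro h
    have h' := hT.res.off (c₀ • hevv D.a y 1 0) (hYcone _ _ (hy3 1 0)) (hnF 1 0 h10)
    apply h'
    rw [hy10, h]
    exact sm3_zero_DX hT
  -- derivatives
  have hdps : dps c 1 0 = ((4 ^ m * D.a : ℕ) : ℂ) • ev E (c₀ • D.gr (ov 1 u)) := by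
    rw [sm2_dps_one, hpt10]
  have hdpt : dpt c 1 0 = dTh2 D E c₀ u (c₀ • z) := by
    funext i
    have e1 := sm2_has_dpt c 1 0 i
    have e2 : (fun y' : ℂ => pt c 1 y' i) =
        fun y' => ev E (c₀ • D.gr (ov 1 u + y' • ov 0 z)) i := by
      funext y'
      have h := congrFun (hc 1 y') i
      rw [one_pow, one_smul, one_smul] at h
      exact h
    rw [e2] at e1
    have e3 := sm2_deriv D E c₀ (γ := fun y' => ov 1 u + y' • ov 0 z) (γ' := ov 0 z) (τ := 0)
      (fun o => hasDerivAt_line (ov 1 u) (ov 0 z) 0 o) i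
    have e4 := e1.unique e3
    simp only [zero_smul, add_zero] at e4
    rw [e4, sm2_dTh2_smul, dev_smul]
    rfl
  have hda : ((4 ^ m * D.a : ℕ) : ℂ) ≠ 0 := by
    rw [Nat.cast_ne_zero]
    have := hD.fd.two_le
    exact Nat.mul_ne_zero hKpos (by omega)
  refine ⟨⟨h10, ?_, ?_⟩, ⟨c₀, hc₀, hdpt⟩, ⟨_, hdps⟩⟩
  · -- immersive
    obtain ⟨f, hf1, hf2, hf3, -⟩ := h3 D m N E X DX hT u c₀ hc₀ hu0
      (fun τ hτ _ => hmov τ hτ)
    rw [LinearIndependent.pair_iff]
    intro s t hst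
    rw [hdps, hdpt, ← hf2] at hst
    have e1 : t • f (c₀ • z) ∈ LinearMap.range f ⊓
        Submodule.span ℂ {ev E (c₀ • D.gr (ov 1 u))} := by
      refine ⟨⟨t • (c₀ • z), map_smul _ _ _⟩, ?_⟩
      rw [SetLike.mem_coe, Submodule.mem_span_singleton]
      refine ⟨-(s * ((4 ^ m * D.a : ℕ) : ℂ)), ?_⟩
      rw [smul_smul] at hst
      rw [neg_smul]
      exact neg_eq_of_add_eq_zero_right hst
    rw [hf3, Submodule.mem_bot] at e1
    have e2 : t = 0 := by
      rw [← map_smul] at e1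
      have e3 : t • c₀ • z = 0 := hf1 (by rw [e1, map_zero])
      rcases smul_eq_zero.1 e3 with h | h
      · exact h
      · rcases smul_eq_zero.1 h with h | h
        · exact absurd h hc₀
        · exact absurd h hz0
    refine ⟨?_, e2⟩
    rw [e1, add_zero, smul_smul] at hst
    rcases smul_eq_zero.1 hst with h | h
    · exact (mul_eq_zero.1 h).resolve_right hda
    · exact absurd h hv0
  · -- unique
    rintro s' t' hst' ⟨b, hb⟩
    rw [hpt s' t', hpt 1 0] at hb
    obtain ⟨g, c', hi⟩ := hT.res.sep (c₀ • hevv D.a y 1 0) (hYcone _ _ (hy3 1 0)) (hnF 1 0 h10)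
      (c₀ • hevv D.a y s' t') (hYcone _ _ (hy3 s' t')) (hnF s' t' hst') b hb
    obtain ⟨H1, -, -⟩ := st_HTR D hD g
    rw [hy10, map_smul, ← H1, oext_ov] at hi
    have hi2 : hevv D.a y s' t' = c' • D.gr (ov 1 (D.ρ g u)) := by
      have h := congrArg (fun x => c₀⁻¹ • x) hi
      simp only [smul_smul] at h
      rw [inv_mul_cancel₀ hc₀, one_smul] at h
      rw [h]
      congr 1
      field_simp
    have hne : hevv D.a y s' t' ≠ 0 := hy1.ne s' t' hst'
    have e1 : seg (s' • ov 1 u + t' • ov 0 z : Option (Fin D.w) → ℂ) (hevv (D.a - 1) η s' t') =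
        seg (ov 1 (D.ρ g u)) (c' • ev D.F (ov 1 (D.ρ g u))) := by
      rw [← hy2, hi2, seg_smul_right, VD.gr]
    obtain ⟨e, he, e2, -⟩ := seg_eq_seg e1 (by rw [← hy2]; exact hne)
    have e3 : (1 : ℂ) = e * s' := by
      have h := congrFun e2 none
      simpa using h
    have e4 : D.ρ g u = u + (e * t') • z := by
      funext j
      have h := congrFun e2 (some j)
      simp only [ov_some, Pi.smul_apply, Pi.add_apply, smul_eq_mul] at h
      rw [h, Pi.add_apply, Pi.smul_apply, smul_eq_mul]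
      linear_combination (-(u j)) * e3
    rw [one_mul, zero_mul]
    by_contra ht'
    by_cases hg : g = 1
    · rw [hg, map_one, Module.End.one_apply] at e4
      have e6 : (e * t') • z = 0 := by
        have h : u + 0 = u + (e * t') • z := by rw [add_zero]; exact e4
        exact (add_left_cancel h).symm
      rcases smul_eq_zero.1 e6 with h | h
      · exact (mul_ne_zero he ht') h
      · exact hz0 h
    · apply hG.mov g hg
      rw [e4, add_sub_cancel_left]
      exact sm2_zcone hD _ hz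

end Pool.Agent.Helper87.PG
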